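import Pool.Agent.helper72.UP.Spec

/-!
# Project UP (MP_7e34bc_co, Q2), row STA (helper67)
-/

set_option autoImplicit false

namespace Pool.Agent.helper72.UP

open Finset

private theorem STA_card (n : ℕ) (i j : Fin n) (hij : i ≠ j) :
    Fintype.card {x : Fin n // x ≠ i ∧ x ≠ j} = n - 2 := by
  rw [Fintype.card_subtype]
  have h1 : (univ.filter fun x : Fin n => x ≠ i ∧ x ≠ j) = univ \ {i, j} := by
    ext x
    simp only [mem_filter, mem_univ, true_and, mem_sdiff, mem_insert, mem_singleton, not_or]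
  rw [h1, card_sdiff_of_subset (subset_univ _), card_univ, Fintype.card_fin, card_pair hij]

theorem STA (h1 : LPB_stmt) (h2 : FOE_stmt) (h3 : FOO_stmt) (h4 : LYF_stmt) (h5 : SPL_stmt) :
    STA_stmt := by
  intro n y i j T hy hlt
  have hij : i ≠ j := by
    rintro rfl
    exact lt_irrefl _ hlt
  have hn : 2 ≤ n := by
    by_contra hn
    exact hij (Fin.ext (by have := i.2; have := j.2; omega))
  have hs := h5 (Fin n) y i j T hij
  obtain ⟨f, hf1, hf2, hf3⟩ := h4 {x : Fin n // x ≠ i ∧ x ≠ j} (fun x => y x.1) (y i) (y j) T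
    (fun x => hy x.1) (hy i) hlt
  have hcard := STA_card n i j hij
  rw [hcard] at hf1 hf2 hf3
  have hcnt : (cnt y T : ℝ) = ∑ r ∈ range (n - 2 + 1), f r := by
    rw [hf3, hs]
    push_cast
    ring
  have key : (n : ℝ) * (cnt y T : ℝ) ≤ ((n - 1 : ℕ) : ℝ) * (n.choose (n / 2) : ℝ) := by
    rcases Nat.even_or_odd' (n - 2) with ⟨h, hh | hh⟩
    · have e1 : n = 2 * h + 2 := by omega
      subst e1
      have e2 : 2 * h + 2 - 2 = 2 * h := by omega
      rw [e2] at hf1 hf2 hcnt
      have hb := h1 (2 * h) f ((2 * h).choose (h + 2) : ℝ) (Nat.cast_nonneg _) hf1 hf2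
      have hc := h2 h
      have e3 : (2 * h + 2) / 2 = h + 1 := by omega
      have e4 : 2 * h + 2 - 1 = 2 * h + 1 := by omega
      rw [hcnt, e3, e4]
      push_cast
      have h0 : (0 : ℝ) ≤ 2 * (h : ℝ) + 2 := by positivity
      exact (mul_le_mul_of_nonneg_left hb h0).trans hc
    · have e1 : n = 2 * h + 3 := by omega
      subst e1
      have e2 : 2 * h + 3 - 2 = 2 * h + 1 := by omega
      rw [e2] at hf1 hf2 hcnt
      have hb := h1 (2 * h + 1) f ((2 * h + 1).choose (h + 2) : ℝ) (Nat.cast_nonneg _) hf1 hf2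
      have hc := h3 h
      have e3 : (2 * h + 3) / 2 = h + 1 := by omega
      have e4 : 2 * h + 3 - 1 = 2 * h + 2 := by omega
      rw [hcnt, e3, e4]
      push_cast
      have h0 : (0 : ℝ) ≤ 2 * (h : ℝ) + 3 := by positivity
      exact (mul_le_mul_of_nonneg_left hb h0).trans hc
  exact_mod_cast key

end Pool.Agent.helper72.UP
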